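import Pool.Agent.H477R3.Gap.Count

set_option autoImplicit false

/-!
# 2-gap planar graphs with `6.4 n - 90 √n` edges, drawn with straight edges

`Drawing` is defined in `Pool/Agent/H477R3/K5/Draw.lean`; `Straight`, `Regular` and
`StraightGapPlanar` are defined in `Pool/Agent/H477R3/Gap/Main.lean`.
-/

namespace Pool.Agent.Results.MP_d13294_co.TwoGapLowerBound

open Pool.Agent.H477R3.Gap

theorem result (n : ℕ) : ∃ G : SimpleGraph (Fin n), StraightGapPlanar 2 G ∧
    32 / 5 * (n : ℝ) - 90 * Real.sqrt n ≤ (G.edgeSet.ncard : ℝ) :=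
  main n

end Pool.Agent.Results.MP_d13294_co.TwoGapLowerBound
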